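import Pool.Agent.P.MP_2cf87a_nt.Dim

/-!
The set `B_s` has Hausdorff dimension two for every `0 < s < 1`.
-/

namespace Pool.Agent.Results.MP_2cf87a_nt.FullDimension

/-- Distance from `x` to the nearest integer. -/
noncomputable def nint (x : ℝ) : ℝ := |x - round x|

/-- The quantity `n m_n^s M_n^(2-s)`, where `m_n` and `M_n` are the minimum and the maximum
of `‖nα‖` and `‖nβ‖`. -/
noncomputable def mix (s : ℝ) (n : ℕ) (α β : ℝ) : ℝ :=
  n * (min (nint (n * α)) (nint (n * β))) ^ s * (max (nint (n * α)) (nint (n * β))) ^ (2 - s)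

/-- The set `B_s` of pairs `(α, β)` with `inf_{n ≥ 1} n m_n^s M_n^(2-s) > 0`. -/
def B (s : ℝ) : Set (EuclideanSpace ℝ (Fin 2)) :=
  {x | 0 < ⨅ n : ℕ+, mix s n (x 0) (x 1)}

open Pool.Agent.P.MP_2cf87a_nt

theorem result (s : ℝ) (h0 : 0 < s) (h1 : s < 1) : dimH (B s) = 2 := by
  apply le_antisymm
  · refine (dimH_mono (Set.subset_univ _)).trans (le_of_eq ?_)
    rw [Real.dimH_univ_eq_finrank]
    simp
  · refine (two_le_dimH h0 h1).trans ?_
    let f : EuclideanSpace ℝ (Fin 2) →L[ℝ] ℝ × ℝ :=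
      (EuclideanSpace.proj (0 : Fin 2)).prod (EuclideanSpace.proj (1 : Fin 2))
    refine le_trans (dimH_mono ?_) (f.lipschitz.dimH_image_le (B s))
    rintro x ⟨c, hc, hx⟩
    refine ⟨!₂[x.1, x.2], ?_, ?_⟩
    · refine hc.trans_le (le_ciInf fun n => ?_)
      exact hx n n.2
    · simp [f]

end Pool.Agent.Results.MP_2cf87a_nt.FullDimension
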